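import Pool.Agent.W242.IM.Final2

/-!
# Mahler measures of Hermitian matrices and deletion of rows

Let `A` be a Hermitian matrix with integral characteristic polynomial `p`, and suppose that there is
a set `S` of at most `s` rows such that the characteristic polynomial `q` of `A` with the rows and
columns in `S` deleted is integral and every common divisor of `p` and `q` has measure `1` (all its
zeros lie in `[-2, 2]`).  For every `s`, the closure of the set of the Mahler measures of
`z ^ n p(z + 1/z)`, over all such `A` of all sizes `n`, consists of Mahler measures of integer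
polynomials in several variables; below every bound it has finite Cantor-Bendixson rank.

For instance `s = 1` covers all irreducible characteristic polynomials of integer symmetric matrices.
-/

set_option autoImplicit false

namespace Pool.Agent.Results.MP_6d22ea_nt.DeletedRows

open Polynomial

noncomputable section

/-- Value of an integer polynomial in `k` variables at the torus point
`(exp (2 π i t_1), …, exp (2 π i t_k))`. -/
def value {k : ℕ} (F : MvPolynomial (Fin k) ℤ) (t : Fin k → ℝ) : ℂ :=
  MvPolynomial.eval (fun j : Fin k => Complex.exp (2 * (Real.pi : ℂ) * Complex.I * ((t j : ℝ) : ℂ)))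
    (MvPolynomial.map (Int.castRingHom ℂ) F)

/-- The Mahler measure of an integer polynomial in `k` variables. -/
def mahler {k : ℕ} (F : MvPolynomial (Fin k) ℤ) : ℝ :=
  Real.exp (∫ t in Set.Icc (0 : Fin k → ℝ) 1, Real.log ‖value F t‖)

/-- The set of the Mahler measures of the nonzero integer polynomials in any number of variables. -/
def allMeasures : Set ℝ :=
  {x : ℝ | ∃ k : ℕ, 1 ≤ k ∧ ∃ F : MvPolynomial (Fin k) ℤ, F ≠ 0 ∧ x = mahler F}

/-- The polynomial `z ^ n p(z + 1/z)` for a polynomial `p` of degree `n`. -/
def reciprocalOf (p : ℂ[X]) : ℂ[X] :=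
  ∑ k ∈ Finset.range (p.natDegree + 1), C (p.coeff k) * (X ^ 2 + 1) ^ k * X ^ (p.natDegree - k)

/-- The Mahler measure of `z ^ n p(z + 1/z)`. -/
def traceMeasure (p : ℂ[X]) : ℝ := (reciprocalOf p).mahlerMeasure

/-- The measures of the Hermitian matrices with integral characteristic polynomial `p`, having at
most `s` rows whose deletion gives an integral characteristic polynomial `q` such that all common
divisors of `p` and `q` have measure `1`. -/
def deletionMeasures (s : ℕ) : Set ℝ :=
  {x : ℝ | ∃ (n : ℕ) (A : Matrix (Fin n) (Fin n) ℂ), A.IsHermitian ∧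
    ∃ (S : Finset (Fin n)) (p q : ℤ[X]), S.card ≤ s ∧
      p.map (Int.castRingHom ℂ) = A.charpoly ∧
      q.map (Int.castRingHom ℂ) =
        (A.submatrix (Subtype.val : (Sᶜ : Finset (Fin n)) → Fin n) Subtype.val).charpoly ∧
      (∀ d : ℤ[X], d ∣ p → d ∣ q → traceMeasure (d.map (Int.castRingHom ℂ)) = 1) ∧
      x = traceMeasure A.charpoly}

theorem result (s : ℕ) :
    closure (deletionMeasures s) ⊆ allMeasures ∧
      ∀ B : ℝ, ∃ m : ℕ, ∀ x ∈ derivedSet^[m] (deletionMeasures s), B ≤ x :=
  Pool.Agent.W242.IM.closure_of_LL (deletionMeasures s) (Pool.Agent.W242.IM.TD_LL s)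

end

end Pool.Agent.Results.MP_6d22ea_nt.DeletedRows
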