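import Pool.Agent.W242.IM.Incl

/-!
# Mahler measures of Hermitian matrices with integral principal submatrices

For a matrix `A` of size `n` the measure `M(A)` is the Mahler measure of `z ^ n χ_A(z + 1/z)`.
For every `k`, the closure of the set of the measures `M(A)` of all Hermitian matrices `A` of
`k × k` blocks (of any number of blocks), all of whose principal submatrices made of blocks have
integral characteristic polynomials, consists of Mahler measures of integer polynomials in several
variables; below every bound it has finite Cantor-Bendixson rank.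

Examples for `k = 1`: integer symmetric matrices, adjacency matrices of graphs and signed graphs,
Hermitian matrices over the integers of imaginary quadratic fields.  The class contains the norms of
the characteristic polynomials of all matrices over the rings of integers of number fields of degree
`k`, all of whose conjugates are Hermitian (so the field may be totally real or a CM field).

Method.  For a Hermitian matrix `A` and a row `v` the height `∫ log max(|χ_A|, |χ_{A - v}|)` over
`[-2, 2]` with the arcsine distribution is at most `3 log M(A) + 5 log 2` (average of the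
characteristic polynomials of `A + 2 cos(2 π φ) E_vv`).  A minimal matrix of the class with an
eigenvalue outside `[-2, 2]` has bounded size, because its measure tends to `1` with the size, while
the Lehmer gap holds for pairs of bounded height.  A packing argument shows that a matrix of bounded
measure has boundedly many rows whose deletion leaves all eigenvalues in `[-2, 2]`, and the
compactness of the pairs of bounded height gives the result.
-/

set_option autoImplicit false

namespace Pool.Agent.Results.MP_6d22ea_nt.HermitianBlocks

open Polynomial NumberField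

noncomputable section

/-- Value of an integer polynomial in `k` variables at the torus point
`(exp (2 π i t_1), …, exp (2 π i t_k))`. -/
def value {k : ℕ} (F : MvPolynomial (Fin k) ℤ) (t : Fin k → ℝ) : ℂ :=
  MvPolynomial.eval (fun j : Fin k => Complex.exp (2 * (Real.pi : ℂ) * Complex.I * ((t j : ℝ) : ℂ)))
    (MvPolynomial.map (Int.castRingHom ℂ) F)

/-- The Mahler measure of an integer polynomial in `k` variables. -/
def mahler {k : ℕ} (F : MvPolynomial (Fin k) ℤ) : ℝ :=
  Real.exp (∫ t in Set.Icc (0 : Fin k → ℝ) 1, Real.log ‖value F t‖)

/-- The set of the Mahler measures of the nonzero integer polynomials in any number of variables. -/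
def allMeasures : Set ℝ :=
  {x : ℝ | ∃ k : ℕ, 1 ≤ k ∧ ∃ F : MvPolynomial (Fin k) ℤ, F ≠ 0 ∧ x = mahler F}

/-- The polynomial `z ^ n p(z + 1/z)` for a polynomial `p` of degree `n`. -/
def reciprocalOf (p : ℂ[X]) : ℂ[X] :=
  ∑ k ∈ Finset.range (p.natDegree + 1), C (p.coeff k) * (X ^ 2 + 1) ^ k * X ^ (p.natDegree - k)

/-- The Mahler measure of `z ^ n p(z + 1/z)`. -/
def traceMeasure (p : ℂ[X]) : ℝ := (reciprocalOf p).mahlerMeasure

/-- The principal submatrix of a matrix of `k × k` blocks with the blocks in `U`. -/
def blocks {n k : ℕ} (A : Matrix (Fin n × Fin k) (Fin n × Fin k) ℂ) (U : Finset (Fin n)) :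
    Matrix (U × Fin k) (U × Fin k) ℂ :=
  A.submatrix (fun x => (x.1.1, x.2)) (fun x => (x.1.1, x.2))

/-- The measures `M(A)` of the Hermitian matrices `A` of `k × k` blocks, all of whose principal
submatrices made of blocks have a characteristic polynomial with integer coefficients. -/
def blockMeasures (k : ℕ) : Set ℝ :=
  {x : ℝ | ∃ (n : ℕ) (A : Matrix (Fin n × Fin k) (Fin n × Fin k) ℂ), A.IsHermitian ∧
    (∀ U : Finset (Fin n), ∃ P : ℤ[X], P.map (Int.castRingHom ℂ) = (blocks A U).charpoly) ∧
      x = traceMeasure A.charpoly}

/-- The conjugate of a matrix over the ring of integers of a number field. -/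
def conjugate {K : Type} [Field K] {n : ℕ} (A : Matrix (Fin n) (Fin n) (𝓞 K)) (σ : K →+* ℂ) :
    Matrix (Fin n) (Fin n) ℂ := A.map (fun x => σ (algebraMap (𝓞 K) K x))

/-- The measures of the norms of the characteristic polynomials of the matrices over the rings of
integers of number fields of degree `k`, all of whose conjugates are Hermitian. -/
def fieldMeasures (k : ℕ) : Set ℝ :=
  {x : ℝ | ∃ (K : Type) (_ : Field K) (_ : NumberField K), Module.finrank ℚ K = k ∧
    ∃ (n : ℕ) (A : Matrix (Fin n) (Fin n) (𝓞 K)), (∀ σ : K →+* ℂ, (conjugate A σ).IsHermitian) ∧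
      x = traceMeasure (∏ σ : K →+* ℂ, (conjugate A σ).charpoly)}

theorem result (k : ℕ) :
    closure (blockMeasures k) ⊆ allMeasures ∧
      (∀ B : ℝ, ∃ m : ℕ, ∀ x ∈ derivedSet^[m] (blockMeasures k), B ≤ x) ∧
      fieldMeasures k ⊆ blockMeasures k := by
  obtain ⟨h1, h2⟩ := Pool.Agent.W242.IM.closure_of_LL (blockMeasures k)
    (Pool.Agent.W242.IM.TB_LL k)
  refine ⟨h1, h2, ?_⟩
  rintro x ⟨K, _, _, hk, n, A, hA, rfl⟩
  obtain ⟨B, hB, h3⟩ := Pool.Agent.W242.IM.nf_block k K hk n A hA
  exact ⟨n, B, hB.1, hB.2, congrArg traceMeasure h3.symm⟩

end

end Pool.Agent.Results.MP_6d22ea_nt.HermitianBlocks
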