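import Pool.Agent.W242.IM.Final2

/-!
# Mahler measures of real-rooted trace polynomials with an interlacing integer polynomial

Let `p` be a monic integer polynomial of degree `n` with only real zeros, and let `q` be an integer
polynomial of degree less than `n` with `q(x) p'(x) > 0` at all zeros `x` of `p` (so `p` has simple
zeros and the zeros of `q` interlace them; the element `q/p'` of the dual of `ℤ[X]/(p)` is totally
positive and its trace is the coefficient of `X ^ (n-1)` in `q`).  For every `L`, the closure of the
set of the Mahler measures of `z ^ n p(z + 1/z)`, over all `p` having such a `q` with coefficient of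
`X ^ (n-1)` at most `L`, consists of Mahler measures of integer polynomials in several variables;
below every bound it has finite Cantor-Bendixson rank.
-/

set_option autoImplicit false

namespace Pool.Agent.Results.MP_6d22ea_nt.InterlacedPolynomials

open Polynomial

noncomputable section

/-- Value of an integer polynomial in `k` variables at the torus point
`(exp (2 π i t_1), …, exp (2 π i t_k))`. -/
def value {k : ℕ} (F : MvPolynomial (Fin k) ℤ) (t : Fin k → ℝ) : ℂ :=
  MvPolynomial.eval (fun j : Fin k => Complex.exp (2 * (Real.pi : ℂ) * Complex.I * ((t j : ℝ) : ℂ)))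
    (MvPolynomial.map (Int.castRingHom ℂ) F)

/-- The Mahler measure of an integer polynomial in `k` variables. -/
def mahler {k : ℕ} (F : MvPolynomial (Fin k) ℤ) : ℝ :=
  Real.exp (∫ t in Set.Icc (0 : Fin k → ℝ) 1, Real.log ‖value F t‖)

/-- The set of the Mahler measures of the nonzero integer polynomials in any number of variables. -/
def allMeasures : Set ℝ :=
  {x : ℝ | ∃ k : ℕ, 1 ≤ k ∧ ∃ F : MvPolynomial (Fin k) ℤ, F ≠ 0 ∧ x = mahler F}

/-- The polynomial `z ^ n p(z + 1/z)` for a polynomial `p` of degree `n`. -/
def reciprocalOf (p : ℂ[X]) : ℂ[X] :=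
  ∑ k ∈ Finset.range (p.natDegree + 1), C (p.coeff k) * (X ^ 2 + 1) ^ k * X ^ (p.natDegree - k)

/-- The Mahler measure of `z ^ n p(z + 1/z)`. -/
def traceMeasure (p : ℂ[X]) : ℝ := (reciprocalOf p).mahlerMeasure

/-- `p` is monic with only real zeros, `q` has smaller degree, and `q p'` is positive at the zeros
of `p`. -/
def Interlaced (p q : ℤ[X]) : Prop :=
  p.Monic ∧ (∀ z : ℂ, (p.map (Int.castRingHom ℂ)).eval z = 0 → z.im = 0) ∧
    q.natDegree < p.natDegree ∧
    ∀ x : ℝ, (p.map (Int.castRingHom ℝ)).eval x = 0 →
      0 < (q.map (Int.castRingHom ℝ)).eval x * (p.derivative.map (Int.castRingHom ℝ)).eval x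

/-- The measures of the polynomials `p` that have an interlacing integer polynomial of trace at
most `L`. -/
def interlacedMeasures (L : ℕ) : Set ℝ :=
  {x : ℝ | ∃ p q : ℤ[X], Interlaced p q ∧ q.coeff (p.natDegree - 1) ≤ L ∧
    x = traceMeasure (p.map (Int.castRingHom ℂ))}

theorem result (L : ℕ) :
    closure (interlacedMeasures L) ⊆ allMeasures ∧
      ∀ B : ℝ, ∃ m : ℕ, ∀ x ∈ derivedSet^[m] (interlacedMeasures L), B ≤ x :=
  Pool.Agent.W242.IM.closure_of_LL (interlacedMeasures L) (Pool.Agent.W242.IM.TI_LL L)

end

end Pool.Agent.Results.MP_6d22ea_nt.InterlacedPolynomials
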